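import Mathlib

/-!
# MP_d2a7e5_an: the digamma remainder is not completely monotonic, on no half-line

If `G` satisfied `(-1)^n G^(n) ≥ 0` on `(c, ∞)` for all `n`, then so would `H(x) = G(x) - G(x + 1)`,
in which the digamma function cancels up to `1 / (x + 1)`. The `n`-th derivatives of the logarithms
are `2 (-1)^(n-1) (n-1)! Re (x + 1/2 + i d)^(-n)`. Along `x + 1/2 = n d / (2 π)` the sign of
`(-1)^n H^(n)` is negative for large `n`.
-/

set_option autoImplicit false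

open Filter Topology Set

namespace Pool.Agent.Results.MP_d2a7e5_an.NotCompletelyMonotonic

/-- the digamma function `ψ = Γ' / Γ` -/
noncomputable def psi (x : ℝ) : ℝ := deriv Real.Gamma x / Real.Gamma x

/-- `𝓛(x, a)` -/
noncomputable def L (x a : ℝ) : ℝ :=
  1 / (90 * a ^ 2 + 2) * Real.log (x ^ 2 + x + (3 * a + 1) / 3) +
    45 * a ^ 2 / (90 * a ^ 2 + 2) * Real.log (x ^ 2 + x + (15 * a - 1) / (45 * a))

/-- `a₁ = (40 + 3 √205) / 105` -/
noncomputable def a₁ : ℝ := (40 + 3 * Real.sqrt 205) / 105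

/-- `G(x) = 𝓛(x, a₁) - ψ(x + 1)` -/
noncomputable def G (x : ℝ) : ℝ := L x a₁ - psi (x + 1)

lemma gamma_analytic {x : ℝ} (hx : 0 < x) : AnalyticAt ℝ Real.Gamma x := by
  have h1 : AnalyticAt ℂ Complex.Gamma (x : ℂ) := by
    have hopen : IsOpen {z : ℂ | 0 < z.re} := isOpen_lt continuous_const Complex.continuous_re
    have hd : DifferentiableOn ℂ Complex.Gamma {z : ℂ | 0 < z.re} := by
      intro z hz
      refine (Complex.differentiableAt_Gamma z fun m hm => ?_).differentiableWithinAt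
      have hz' : 0 < z.re := hz
      rw [hm] at hz'
      simp at hz'
      linarith [(Nat.cast_nonneg m : (0 : ℝ) ≤ m)]
    exact hd.analyticAt (hopen.mem_nhds (by simpa using hx))
  have h2 := h1.re_ofReal
  refine h2.congr (Eventually.of_forall fun y => ?_)
  simp [Complex.Gamma_ofReal]

lemma psi_analytic {x : ℝ} (hx : 0 < x) : AnalyticAt ℝ psi x :=
  (gamma_analytic hx).deriv.div (gamma_analytic hx) (Real.Gamma_pos_of_pos hx).ne'

lemma psi_add_one {x : ℝ} (hx : 0 < x) : psi (x + 1) = psi x + 1 / x := by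
  have hG := (Real.Gamma_pos_of_pos hx).ne'
  have h1 : HasDerivAt (fun y => Real.Gamma (y + 1)) (deriv Real.Gamma (x + 1)) x :=
    (gamma_analytic (by linarith : (0 : ℝ) < x + 1)).differentiableAt.hasDerivAt.comp_add_const x 1
  have h2 : HasDerivAt (fun y => y * Real.Gamma y) (1 * Real.Gamma x + x * deriv Real.Gamma x) x :=
    (hasDerivAt_id x).mul (gamma_analytic hx).differentiableAt.hasDerivAt
  have h3 : (fun y => Real.Gamma (y + 1)) =ᶠ[𝓝 x] fun y => y * Real.Gamma y := by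
    filter_upwards [lt_mem_nhds hx] with y hy
    exact Real.Gamma_add_one hy.ne'
  have h4 := h1.unique (h2.congr_of_eventuallyEq h3)
  unfold psi
  rw [h4, Real.Gamma_add_one hx.ne']
  field_simp
  ring

/-- the function `Re (x + 1/2 + i d)^(-n)` -/
noncomputable def pr (d : ℝ) (n : ℕ) (x : ℝ) : ℝ := ((((x : ℂ) + 1 / 2) + d * Complex.I) ^ n)⁻¹.re

lemma ne_zero {d : ℝ} (hd : 0 < d) (x : ℝ) : ((x : ℂ) + 1 / 2) + d * Complex.I ≠ 0 := by
  intro h
  have := congrArg Complex.im h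
  simp at this
  exact hd.ne' this

lemma pr_one {d : ℝ} (x : ℝ) : pr d 1 x = (x + 1 / 2) / ((x + 1 / 2) ^ 2 + d ^ 2) := by
  unfold pr
  have e : ((x + 1 / 2 : ℂ) + d * Complex.I) = ((x + 1 / 2 : ℝ) : ℂ) + d * Complex.I := by
    push_cast; ring
  rw [pow_one, e, Complex.inv_re, Complex.normSq_apply]
  simp only [Complex.add_re, Complex.ofReal_re, Complex.mul_re, Complex.I_re, mul_zero,
    Complex.ofReal_im, Complex.I_im, mul_one, sub_self, add_zero, Complex.add_im, Complex.mul_im,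
    zero_add]
  congr 1
  ring

lemma hasDerivAt_pr {d : ℝ} (hd : 0 < d) (n : ℕ) (x : ℝ) :
    HasDerivAt (pr d (n + 1)) (-((n + 1 : ℕ) : ℝ) * pr d (n + 2) x) x := by
  have h2 : HasDerivAt (fun z : ℂ => z + 1 / 2 + d * Complex.I) 1 (x : ℂ) :=
    ((hasDerivAt_id _).add_const _).add_const _
  have h3 := (h2.pow (n + 1)).inv (pow_ne_zero _ (ne_zero hd x))
  have h4 := h3.real_of_complex
  have e : (-(((n + 1 : ℕ) : ℂ) * ((x : ℂ) + 1 / 2 + d * Complex.I) ^ (n + 1 - 1) * 1) /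
      (((x : ℂ) + 1 / 2 + d * Complex.I) ^ (n + 1)) ^ 2).re = -((n + 1 : ℕ) : ℝ) * pr d (n + 2) x := by
    unfold pr
    have hx := ne_zero hd x
    have e1 : (-(((n + 1 : ℕ) : ℂ) * ((x : ℂ) + 1 / 2 + d * Complex.I) ^ (n + 1 - 1) * 1) /
      (((x : ℂ) + 1 / 2 + d * Complex.I) ^ (n + 1)) ^ 2) =
        ((-((n + 1 : ℕ) : ℝ) : ℝ) : ℂ) * ((((x : ℂ) + 1 / 2) + d * Complex.I) ^ (n + 2))⁻¹ := by
      rw [Nat.add_sub_cancel]
      push_cast
      generalize (x : ℂ) + 1 / 2 + d * Complex.I = w at hx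
      have e2 : (w ^ (n + 1)) ^ 2 = w ^ n * w ^ (n + 2) := by ring
      rw [e2]
      field_simp
    rw [e1, Complex.re_ofReal_mul]
  rw [← e]
  exact h4

/-- The derivatives of `log (x^2 + x + β)` for `β = 1/4 + d^2`. -/
lemma iter_log {β d : ℝ} (hd : 0 < d) (hβ : β = 1 / 4 + d ^ 2) (n : ℕ) :
    iteratedDeriv (n + 1) (fun x : ℝ => Real.log (x ^ 2 + x + β)) =
      fun x : ℝ => (-1) ^ n * n.factorial * (2 * pr d (n + 1) x) := by
  induction n with
  | zero =>
    rw [zero_add, iteratedDeriv_one]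
    ext x
    have hpos : 0 < x ^ 2 + x + β := by rw [hβ]; nlinarith [sq_nonneg (x + 1 / 2), sq_pos_of_pos hd]
    have h1 : HasDerivAt (fun x : ℝ => x ^ 2 + x + β) (2 * x + 1) x := by
      have := ((hasDerivAt_pow 2 x).add (hasDerivAt_id x)).add_const β
      simpa using this
    rw [(h1.log hpos.ne').deriv, pr_one]
    have e2 : (x + 1 / 2) ^ 2 + d ^ 2 = x ^ 2 + x + β := by rw [hβ]; ring
    rw [pow_zero, Nat.factorial_zero, Nat.cast_one, e2]
    field_simp
  | succ n ih =>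
    rw [iteratedDeriv_succ, ih]
    ext x
    have h5 := ((hasDerivAt_pr hd n x).const_mul 2).const_mul ((-1) ^ n * (n.factorial : ℝ))
    rw [h5.deriv, Nat.factorial_succ]
    push_cast
    ring

/-- The derivatives of `1 / (x + 1)`. -/
lemma iter_inv (n : ℕ) (x : ℝ) (hx : -1 < x) :
    iteratedDeriv n (fun x : ℝ => 1 / (x + 1)) x = (-1) ^ n * n.factorial / (x + 1) ^ (n + 1) := by
  induction n generalizing x with
  | zero => simp
  | succ n ih =>
    rw [iteratedDeriv_succ]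
    have he : iteratedDeriv n (fun x : ℝ => 1 / (x + 1)) =ᶠ[𝓝 x]
        fun x => (-1) ^ n * n.factorial / (x + 1) ^ (n + 1) := by
      filter_upwards [lt_mem_nhds hx] with y hy
      exact ih y hy
    rw [he.deriv_eq]
    have hx1 : (x + 1) ≠ 0 := by linarith
    have h1 : HasDerivAt (fun x : ℝ => (-1) ^ n * n.factorial / (x + 1) ^ (n + 1))
        ((0 * (x + 1) ^ (n + 1) - (-1) ^ n * n.factorial * (((n + 1 : ℕ) : ℝ) * (x + 1) ^ (n + 1 - 1) * 1)) /
          ((x + 1) ^ (n + 1)) ^ 2) x :=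
      (hasDerivAt_const x _).div (((hasDerivAt_id x).add_const 1).pow (n + 1)) (pow_ne_zero _ hx1)
    rw [h1.deriv, Nat.factorial_succ, Nat.add_sub_cancel]
    push_cast
    field_simp
    ring

lemma sqrt_bounds : (14.3 : ℝ) < Real.sqrt 205 ∧ Real.sqrt 205 < 14.4 := by
  constructor
  · rw [Real.lt_sqrt (by norm_num)]; norm_num
  · rw [Real.sqrt_lt' (by norm_num)]; norm_num

lemma a₁_bounds : (0.789 : ℝ) < a₁ ∧ a₁ < 0.793 := by
  obtain ⟨h1, h2⟩ := sqrt_bounds
  unfold a₁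
  constructor
  · rw [lt_div_iff₀ (by norm_num)]; linarith
  · rw [div_lt_iff₀ (by norm_num)]; linarith

noncomputable def d₁ : ℝ := Real.sqrt ((3 * a₁ + 1) / 3 - 1 / 4)
noncomputable def d₂ : ℝ := Real.sqrt ((15 * a₁ - 1) / (45 * a₁) - 1 / 4)

lemma d₁_sq : 0 < d₁ ∧ (3 * a₁ + 1) / 3 = 1 / 4 + d₁ ^ 2 := by
  have h := a₁_bounds.1
  have h0 : 0 < (3 * a₁ + 1) / 3 - 1 / 4 := by linarith
  exact ⟨Real.sqrt_pos.2 h0, by unfold d₁; rw [Real.sq_sqrt h0.le]; ring⟩

lemma d₂_sq : 0 < d₂ ∧ (15 * a₁ - 1) / (45 * a₁) = 1 / 4 + d₂ ^ 2 ∧ d₂ < 0.24 := by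
  obtain ⟨h, h'⟩ := a₁_bounds
  have ha : (0 : ℝ) < 45 * a₁ := by linarith
  have e : (15 * a₁ - 1) / (45 * a₁) = 1 / 3 - 1 / (45 * a₁) := by field_simp; ring
  have h1 : 1 / (45 * a₁) < 0.0283 := by
    rw [div_lt_iff₀ ha]; linarith
  have h2 : 0.028 < 1 / (45 * a₁) := by
    rw [lt_div_iff₀ ha]; linarith
  have h0 : 0 < (15 * a₁ - 1) / (45 * a₁) - 1 / 4 := by rw [e]; linarith
  refine ⟨Real.sqrt_pos.2 h0, by unfold d₂; rw [Real.sq_sqrt h0.le]; ring, ?_⟩
  unfold d₂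
  rw [Real.sqrt_lt' (by norm_num), e]
  norm_num at h2 ⊢
  linarith

/-- the weights of the two logarithms -/
noncomputable def A : ℝ := 1 / (90 * a₁ ^ 2 + 2)
noncomputable def B : ℝ := 45 * a₁ ^ 2 / (90 * a₁ ^ 2 + 2)

lemma AB : 0 < A ∧ 0 < B ∧ 2 * A + 2 * B = 1 ∧ 0.9 < 2 * B - 2 * A := by
  have h := a₁_bounds.1
  have h2 : 0.62 < a₁ ^ 2 := by nlinarith
  have hd : 0 < 90 * a₁ ^ 2 + 2 := by positivity
  refine ⟨by unfold A; positivity, ?_, ?_, ?_⟩
  · unfold B; positivity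
  · unfold A B; field_simp; ring
  · have e : 2 * B - 2 * A = (90 * a₁ ^ 2 - 2) / (90 * a₁ ^ 2 + 2) := by
      unfold A B; field_simp; ring
    rw [e, lt_div_iff₀ hd]
    nlinarith

/-- `(-1)^n` times the `n`-th derivative of `G(x) - G(x+1)`, divided by `(n-1)!` -/
noncomputable def D (n : ℕ) (x : ℝ) : ℝ :=
  A * (2 * pr d₁ n (x + 1) - 2 * pr d₁ n x) + B * (2 * pr d₂ n (x + 1) - 2 * pr d₂ n x) +
    n / (x + 1) ^ (n + 1)

lemma G_analytic {x : ℝ} (hx : -1 < x) : AnalyticAt ℝ G x := by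
  have h1 : ∀ β d : ℝ, 0 < d → β = 1 / 4 + d ^ 2 →
      AnalyticAt ℝ (fun x : ℝ => Real.log (x ^ 2 + x + β)) x := by
    intro β d hd hβ
    refine AnalyticAt.log ?_ ?_
    · fun_prop
    · rw [hβ]; nlinarith [sq_nonneg (x + 1 / 2), sq_pos_of_pos hd]
  have h2 : AnalyticAt ℝ (fun x : ℝ => psi (x + 1)) x := by
    refine AnalyticAt.fun_comp (g := psi) (f := fun x => x + 1) (psi_analytic (by linarith)) ?_
    fun_prop
  have h3 := (((h1 _ _ d₁_sq.1 d₁_sq.2).const_smul (c := A)).add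
    ((h1 _ _ d₂_sq.1 d₂_sq.2.1).const_smul (c := B))).sub h2
  refine h3.congr (Eventually.of_forall fun y => ?_)
  simp only [Pi.add_apply, Pi.sub_apply, Pi.smul_apply, smul_eq_mul, G, L, A, B]

lemma contDiff_log {β d : ℝ} (hd : 0 < d) (hβ : β = 1 / 4 + d ^ 2) (n : ℕ) :
    ContDiff ℝ n (fun x : ℝ => Real.log (x ^ 2 + x + β)) := by
  refine ContDiff.log (by fun_prop) fun x => ?_
  rw [hβ]; nlinarith [sq_nonneg (x + 1 / 2), sq_pos_of_pos hd]

lemma iter_log_sub {β d : ℝ} (hd : 0 < d) (hβ : β = 1 / 4 + d ^ 2) (n : ℕ) (x : ℝ) :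
    iteratedDeriv (n + 1) (fun x : ℝ => Real.log (x ^ 2 + x + β) -
      Real.log ((x + 1) ^ 2 + (x + 1) + β)) x =
      (-1) ^ n * n.factorial * (2 * pr d (n + 1) x - 2 * pr d (n + 1) (x + 1)) := by
  have h1 := contDiff_log hd hβ (n + 1)
  have h2 : ContDiff ℝ (n + 1 : ℕ) (fun x : ℝ => Real.log ((x + 1) ^ 2 + (x + 1) + β)) :=
    h1.comp (contDiff_id.add contDiff_const)
  rw [iteratedDeriv_fun_sub h1.contDiffAt h2.contDiffAt]
  have e : iteratedDeriv (n + 1) (fun x : ℝ => Real.log ((x + 1) ^ 2 + (x + 1) + β)) x =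
      iteratedDeriv (n + 1) (fun x : ℝ => Real.log (x ^ 2 + x + β)) (x + 1) :=
    congrFun (iteratedDeriv_comp_add_const (n + 1) (fun x : ℝ => Real.log (x ^ 2 + x + β)) 1) x
  rw [e, iter_log hd hβ]
  ring

lemma D_eq (n : ℕ) {x : ℝ} (hx : -1 < x) :
    (-1) ^ (n + 1) * iteratedDeriv (n + 1) G x - (-1) ^ (n + 1) * iteratedDeriv (n + 1) G (x + 1) =
      n.factorial * D (n + 1) x := by
  have hG : ∀ y, -1 < y → ContDiffAt ℝ (n + 1 : ℕ) G y := fun y hy => (G_analytic hy).contDiffAt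
  have e1 : iteratedDeriv (n + 1) G (x + 1) = iteratedDeriv (n + 1) (fun y => G (y + 1)) x := by
    rw [iteratedDeriv_comp_add_const]
  have hG1 : ContDiffAt ℝ (n + 1 : ℕ) (fun y => G (y + 1)) x :=
    ContDiffAt.comp x (g := G) (f := fun y => y + 1) (hG (x + 1) (by linarith)) (by fun_prop)
  have e2 : iteratedDeriv (n + 1) G x - iteratedDeriv (n + 1) G (x + 1) =
      iteratedDeriv (n + 1) (fun y => G y - G (y + 1)) x := by
    rw [e1]
    exact (iteratedDeriv_fun_sub (hG x hx) hG1).symm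
  set f₁ : ℝ → ℝ := fun x => Real.log (x ^ 2 + x + (3 * a₁ + 1) / 3) -
      Real.log ((x + 1) ^ 2 + (x + 1) + (3 * a₁ + 1) / 3) with hf₁
  set f₂ : ℝ → ℝ := fun x => Real.log (x ^ 2 + x + (15 * a₁ - 1) / (45 * a₁)) -
      Real.log ((x + 1) ^ 2 + (x + 1) + (15 * a₁ - 1) / (45 * a₁)) with hf₂
  have h3 : (fun y => G y - G (y + 1)) =ᶠ[𝓝 x] fun y => (A * f₁ y + B * f₂ y) + 1 / (y + 1) := by
    filter_upwards [lt_mem_nhds hx] with y hy
    have := psi_add_one (x := y + 1) (by linarith)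
    simp only [G, L, A, B, hf₁, hf₂]
    linarith
  have c₁ : ContDiff ℝ (n + 1 : ℕ) f₁ :=
    (contDiff_log d₁_sq.1 d₁_sq.2 (n + 1)).sub ((contDiff_log d₁_sq.1 d₁_sq.2 (n + 1)).comp
      (contDiff_id.add contDiff_const))
  have c₂ : ContDiff ℝ (n + 1 : ℕ) f₂ :=
    (contDiff_log d₂_sq.1 d₂_sq.2.1 (n + 1)).sub ((contDiff_log d₂_sq.1 d₂_sq.2.1 (n + 1)).comp
      (contDiff_id.add contDiff_const))
  have c₃ : ContDiffAt ℝ (n + 1 : ℕ) (fun y : ℝ => 1 / (y + 1)) x :=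
    contDiffAt_const.div (by fun_prop) (by linarith)
  have i₁ : iteratedDeriv (n + 1) f₁ x = (-1) ^ n * n.factorial *
      (2 * pr d₁ (n + 1) x - 2 * pr d₁ (n + 1) (x + 1)) := iter_log_sub d₁_sq.1 d₁_sq.2 n x
  have i₂ : iteratedDeriv (n + 1) f₂ x = (-1) ^ n * n.factorial *
      (2 * pr d₂ (n + 1) x - 2 * pr d₂ (n + 1) (x + 1)) := iter_log_sub d₂_sq.1 d₂_sq.2.1 n x
  have e3 : iteratedDeriv (n + 1) (fun y => G y - G (y + 1)) x =
      A * iteratedDeriv (n + 1) f₁ x + B * iteratedDeriv (n + 1) f₂ x +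
        iteratedDeriv (n + 1) (fun y : ℝ => 1 / (y + 1)) x := by
    rw [h3.iteratedDeriv_eq,
      iteratedDeriv_fun_add ((contDiff_const.mul c₁).add (contDiff_const.mul c₂)).contDiffAt c₃,
      iteratedDeriv_fun_add (contDiff_const.mul c₁).contDiffAt (contDiff_const.mul c₂).contDiffAt,
      iteratedDeriv_const_mul_field, iteratedDeriv_const_mul_field]
  have hfac : ((n + 1).factorial : ℝ) = (n + 1) * n.factorial := by
    rw [Nat.factorial_succ]; push_cast; ring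
  have hsq : ((-1 : ℝ) ^ n) * (-1) ^ n = 1 := by
    rw [← mul_pow]; norm_num
  rw [← mul_sub, e2, e3, i₁, i₂, iter_inv (n + 1) x hx, hfac, D]
  have hx1 : (x + 1) ^ (n + 1 + 1) ≠ 0 := pow_ne_zero _ (by linarith)
  push_cast
  field_simp
  rw [pow_succ]
  generalize (-1 : ℝ) ^ n = u at *
  generalize pr d₁ (n + 1) x = p1
  generalize pr d₁ (n + 1) (x + 1) = p2
  generalize pr d₂ (n + 1) x = p3
  generalize pr d₂ (n + 1) (x + 1) = p4
  generalize (x + 1) ^ (n + 1 + 1) = y at *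
  have hu : u ^ 2 = 1 := by rw [pow_two]; exact hsq
  ring_nf
  simp only [hu]
  ring

lemma lim_pow {t₀ : ℝ} (ht : 0 < t₀) (w : ℂ) :
    Tendsto (fun N : ℕ => ((N : ℝ) / t₀) ^ N * ((((N : ℝ) / t₀ : ℝ) + w : ℂ) ^ N)⁻¹.re) atTop
      (𝓝 (Complex.exp (-(w * t₀))).re) := by
  have h1 := (Complex.tendsto_one_add_div_pow_exp (w * t₀)).inv₀ (Complex.exp_ne_zero _)
  rw [← Complex.exp_neg] at h1
  have h2 := (Complex.continuous_re.tendsto _).comp h1
  refine h2.congr' ?_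
  filter_upwards [eventually_gt_atTop 0] with N hN
  have hN' : (N : ℂ) ≠ 0 := by exact_mod_cast hN.ne'
  have ht' : (t₀ : ℂ) ≠ 0 := by exact_mod_cast ht.ne'
  simp only [Function.comp]
  rw [← Complex.re_ofReal_mul]
  congr 1
  push_cast
  rw [← inv_pow, ← inv_pow, ← mul_pow]
  congr 1
  by_cases h0 : (N : ℂ) + w * t₀ = 0
  · have e1 : 1 + w * t₀ / N = 0 := by
      have : 1 + w * t₀ / N = (N + w * t₀) / N := by field_simp
      rw [this, h0, zero_div]
    have e2 : (N : ℂ) / t₀ + w = 0 := by field_simp; linear_combination h0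
    rw [e1, e2]; simp
  · have e1 : 1 + w * t₀ / N = (N + w * t₀) / N := by field_simp
    have e2 : (N : ℂ) / t₀ + w = (N + w * t₀) / t₀ := by field_simp
    rw [e1, e2, inv_div, inv_div]
    field_simp

lemma lim_D {t₀ : ℝ} (ht : 0 < t₀) :
    Tendsto (fun N : ℕ => ((N : ℝ) / t₀) ^ N * D N (N / t₀ - 1 / 2)) atTop
      (𝓝 (A * (2 * (Complex.exp (-((1 + d₁ * Complex.I) * t₀))).re -
          2 * (Complex.exp (-((d₁ * Complex.I) * t₀))).re) +
        B * (2 * (Complex.exp (-((1 + d₂ * Complex.I) * t₀))).re -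
          2 * (Complex.exp (-((d₂ * Complex.I) * t₀))).re) + t₀ * Real.exp (-(t₀ / 2)))) := by
  have h3 : Tendsto (fun N : ℕ => (N : ℝ) / ((N : ℝ) / t₀ + 1 / 2)) atTop (𝓝 t₀) := by
    have h4 : Tendsto (fun N : ℕ => (1 / t₀ + 1 / 2 * (1 / (N : ℝ)))⁻¹) atTop
        (𝓝 (1 / t₀ + 1 / 2 * 0)⁻¹) := by
      refine Tendsto.inv₀ (tendsto_const_nhds.add (tendsto_const_nhds.mul
        tendsto_one_div_atTop_nhds_zero_nat)) ?_
      rw [mul_zero, add_zero]; positivity
    rw [mul_zero, add_zero, one_div, inv_inv] at h4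
    refine h4.congr' ?_
    filter_upwards [eventually_gt_atTop 0] with N hN
    have hN' : (N : ℝ) ≠ 0 := by exact_mod_cast hN.ne'
    field_simp
  have h5 := lim_pow ht (1 / 2)
  have h6 := h3.mul h5
  have e6 : (Complex.exp (-(1 / 2 * (t₀ : ℂ)))).re = Real.exp (-(t₀ / 2)) := by
    have : (-(1 / 2 * (t₀ : ℂ))) = ((-(t₀ / 2) : ℝ) : ℂ) := by push_cast; ring
    rw [this, Complex.exp_ofReal_re]
  rw [e6] at h6
  have h7 := (((((lim_pow ht (1 + d₁ * Complex.I)).const_mul 2).sub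
    ((lim_pow ht (d₁ * Complex.I)).const_mul 2)).const_mul A).add
    ((((lim_pow ht (1 + d₂ * Complex.I)).const_mul 2).sub
    ((lim_pow ht (d₂ * Complex.I)).const_mul 2)).const_mul B)).add h6
  refine h7.congr fun N => ?_
  have e1 : ∀ d : ℝ, pr d N (N / t₀ - 1 / 2) =
      ((((N : ℝ) / t₀ : ℝ) + (d * Complex.I) : ℂ) ^ N)⁻¹.re := by
    intro d
    unfold pr
    congr 3
    push_cast; ring
  have e2 : ∀ d : ℝ, pr d N (N / t₀ - 1 / 2 + 1) =
      ((((N : ℝ) / t₀ : ℝ) + (1 + d * Complex.I) : ℂ) ^ N)⁻¹.re := by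
    intro d
    unfold pr
    congr 3
    push_cast; ring
  have e3 : ((((N : ℝ) / t₀ : ℝ) + (1 / 2) : ℂ) ^ N)⁻¹.re = (((N : ℝ) / t₀ + 1 / 2) ^ N)⁻¹ := by
    have : ((((N : ℝ) / t₀ : ℝ) + (1 / 2) : ℂ) ^ N)⁻¹ = (((((N : ℝ) / t₀ + 1 / 2) ^ N)⁻¹ : ℝ) : ℂ) := by
      push_cast; rfl
    rw [this, Complex.ofReal_re]
  rw [D, e1, e1, e2, e2, e3]
  have e4 : (N : ℝ) / t₀ - 1 / 2 + 1 = N / t₀ + 1 / 2 := by ring
  rw [e4]
  have hp : (N : ℝ) / t₀ + 1 / 2 ≠ 0 := by positivity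
  rw [pow_succ ((N : ℝ) / t₀ + 1 / 2) N]
  field_simp

lemma iter_analytic (n : ℕ) {x : ℝ} (hx : -1 < x) : AnalyticAt ℝ (iteratedDeriv n G) x := by
  induction n generalizing x with
  | zero => rw [iteratedDeriv_zero]; exact G_analytic hx
  | succ n ih => rw [iteratedDeriv_succ]; exact (ih hx).deriv

/-- **`G = 𝓛(·, a₁) - ψ(· + 1)` is not completely monotonic on `(-1, ∞)`, nor on any smaller
half-line**: for every real `c` there are `n` and `x > max(c, -1)` with `(-1)^n G^(n)(x) < 0`. -/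
theorem result (c : ℝ) : ∃ (n : ℕ) (x : ℝ), -1 < x ∧ c < x ∧ (-1) ^ n * iteratedDeriv n G x < 0 := by
  by_contra hcon
  push Not at hcon
  set t₀ : ℝ := 2 * Real.pi / d₂ with ht₀
  have hd₂ := d₂_sq.1
  have hpi := Real.pi_gt_d2
  have ht26 : 26 < t₀ := by
    rw [ht₀, lt_div_iff₀ hd₂]
    linarith [d₂_sq.2.2]
  have ht : 0 < t₀ := by linarith
  have hlim := lim_D ht
  -- the limit is negative
  have hneg : A * (2 * (Complex.exp (-((1 + d₁ * Complex.I) * t₀))).re -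
          2 * (Complex.exp (-((d₁ * Complex.I) * t₀))).re) +
        B * (2 * (Complex.exp (-((1 + d₂ * Complex.I) * t₀))).re -
          2 * (Complex.exp (-((d₂ * Complex.I) * t₀))).re) + t₀ * Real.exp (-(t₀ / 2)) < 0 := by
    obtain ⟨hA, hB, hAB, hBA⟩ := AB
    have g1 : ∀ d : ℝ, (Complex.exp (-((1 + d * Complex.I) * t₀))).re ≤ Real.exp (-t₀) := by
      intro d
      refine (Complex.re_le_norm _).trans (le_of_eq ?_)
      rw [Complex.norm_exp]
      congr 1
      simp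
    have g2 : -1 ≤ (Complex.exp (-((d₁ * Complex.I) * t₀))).re := by
      have h := Complex.abs_re_le_norm (Complex.exp (-((d₁ * Complex.I) * t₀)))
      rw [Complex.norm_exp] at h
      simp only [Complex.neg_re, Complex.mul_re, Complex.ofReal_re, Complex.I_re, mul_zero,
        Complex.ofReal_im, Complex.I_im, mul_one, sub_self, zero_mul, Complex.mul_im, add_zero,
        neg_zero, Real.exp_zero] at h
      exact (abs_le.1 h).1
    have g3 : (Complex.exp (-((d₂ * Complex.I) * t₀))).re = 1 := by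
      have e : -((d₂ * Complex.I) * (t₀ : ℂ)) = -(2 * Real.pi * Complex.I) := by
        rw [ht₀]
        have : (d₂ : ℂ) ≠ 0 := by exact_mod_cast hd₂.ne'
        push_cast
        field_simp
      rw [e, Complex.exp_neg, Complex.exp_two_pi_mul_I]
      simp
    have g4 : Real.exp (-t₀) ≤ 1 / 27 := by
      rw [Real.exp_neg, one_div]
      apply inv_anti₀ (by norm_num)
      have := Real.add_one_le_exp t₀
      linarith
    have g5 : t₀ * Real.exp (-(t₀ / 2)) ≤ 8 / 26 := by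
      have h1 := Real.quadratic_le_exp_of_nonneg (x := t₀ / 2) (by positivity)
      have h2 : t₀ ^ 2 / 8 ≤ Real.exp (t₀ / 2) := by nlinarith
      rw [Real.exp_neg]
      have h3 : 0 < Real.exp (t₀ / 2) := Real.exp_pos _
      rw [← div_eq_mul_inv, div_le_iff₀ h3]
      nlinarith
    have k1 := g1 d₁
    have k2 := g1 d₂
    rw [g3]
    nlinarith [mul_le_mul_of_nonneg_left k1 hA.le, mul_le_mul_of_nonneg_left k2 hB.le,
      mul_le_mul_of_nonneg_left g2 hA.le, mul_le_mul_of_nonneg_left g4 hA.le,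
      mul_le_mul_of_nonneg_left g4 hB.le]
  -- eventually negative
  have hev := hlim.eventually (gt_mem_nhds hneg)
  have hx : Tendsto (fun N : ℕ => (N : ℝ) / t₀ - 1 / 2) atTop atTop := by
    refine tendsto_atTop_add_const_right _ _ ?_
    exact tendsto_natCast_atTop_atTop.atTop_div_const ht
  obtain ⟨N, hN1, hN2, hN3, hN4⟩ := (hev.and ((hx.eventually_gt_atTop c).and
    ((hx.eventually_gt_atTop (-1)).and (eventually_gt_atTop 0)))).exists
  obtain ⟨n, rfl⟩ : ∃ n, N = n + 1 := ⟨N - 1, by omega⟩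
  set x : ℝ := ((n + 1 : ℕ) : ℝ) / t₀ - 1 / 2 with hxdef
  have hD : D (n + 1) x < 0 := by
    have hpos : 0 < ((((n + 1 : ℕ) : ℝ)) / t₀) ^ (n + 1) := by positivity
    by_contra h
    push Not at h
    have := mul_nonneg hpos.le h
    linarith
  -- monotonicity of the derivatives
  have hanti : AntitoneOn (fun y => (-1) ^ (n + 1) * iteratedDeriv (n + 1) G y) (Icc x (x + 1)) := by
    have hder : ∀ y, -1 < y → HasDerivAt (fun y => (-1) ^ (n + 1) * iteratedDeriv (n + 1) G y)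
        ((-1) ^ (n + 1) * iteratedDeriv (n + 2) G y) y := by
      intro y hy
      have h1 := (iter_analytic (n + 1) hy).differentiableAt.hasDerivAt
      have h2 := h1.const_mul ((-1 : ℝ) ^ (n + 1))
      rw [iteratedDeriv_succ (n := n + 1)]
      exact h2
    refine antitoneOn_of_deriv_nonpos (convex_Icc _ _) ?_ ?_ ?_
    · intro y hy
      exact (hder y (by linarith [hy.1])).continuousAt.continuousWithinAt
    · intro y hy
      rw [interior_Icc] at hy
      exact (hder y (by linarith [hy.1])).differentiableAt.differentiableWithinAt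
    · intro y hy
      rw [interior_Icc] at hy
      rw [(hder y (by linarith [hy.1])).deriv]
      have := hcon (n + 2) y (by linarith [hy.1]) (by linarith [hy.1])
      rw [pow_succ] at this
      linarith
  have h8 := hanti (left_mem_Icc.2 (by linarith)) (right_mem_Icc.2 (by linarith))
    (show x ≤ x + 1 by linarith)
  have h9 := D_eq n hN3
  simp only at h8
  have h10 : (n.factorial : ℝ) * D (n + 1) x < 0 :=
    mul_neg_of_pos_of_neg (by exact_mod_cast n.factorial_pos) hD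
  linarith

end Pool.Agent.Results.MP_d2a7e5_an.NotCompletelyMonotonic
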